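import Mathlib
import Pool.Agent.Helper72.HP.Denom
import Pool.Agent.Helper89.OS.St.X6

set_option autoImplicit false
set_option linter.unusedSectionVars false

/-!
Project OS (MP_ffd2c1_ag), piece X10: denominators.
-/

namespace Pool.Agent.Helper64.OS

open MvPolynomial Pool.Agent.Helper29.HP Pool.Agent.Helper89.OS Module

theorem ev_apply (μ f : P3) : ev μ f = AdjoinRoot.mk (psi μ) (psi f) := rfl

theorem psi_X1 : psi (X 1) =
    Polynomial.C (algebraMap (Polynomial ℂ) kx Polynomial.X) := by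
  rw [psi, aeval_X]
  rfl

theorem psi_X2 : psi (X 2) = Polynomial.X := by
  rw [psi, aeval_X]
  rfl

theorem psi_C (a : ℂ) : psi (C a) =
    Polynomial.C (algebraMap (Polynomial ℂ) kx (Polynomial.C a)) := by
  rw [← MvPolynomial.algebraMap_eq, AlgHom.commutes]
  rfl

theorem ev_X1 (μ : P3) : ev μ (X 1) =
    algebraMap kx (KG μ) (algebraMap (Polynomial ℂ) kx Polynomial.X) := by
  rw [ev_apply, psi_X1]
  rfl

theorem ev_X2 (μ : P3) : ev μ (X 2) = AdjoinRoot.root (psi μ) := by
  rw [ev_apply, psi_X2]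
  rfl

theorem ev_C (μ : P3) (c : ℂ) : ev μ (C c) = algebraMap ℂ (KG μ) c := by
  rw [← MvPolynomial.algebraMap_eq, AlgHom.commutes]

/-- elements of the filtered ring -/
def InB (μ : P3) (z : KG μ) : Prop := ∃ n : ℤ, z ∈ LF μ n

theorem InB.add {μ : P3} {a b : KG μ} (ha : InB μ a) (hb : InB μ b) : InB μ (a + b) := by
  obtain ⟨n, hn⟩ := ha
  obtain ⟨k, hk⟩ := hb
  exact ⟨max n k, (LF μ _).add_mem (LF_mono μ (le_max_left _ _) hn)
    (LF_mono μ (le_max_right _ _) hk)⟩

theorem InB.mul {μ : P3} {a b : KG μ} (ha : InB μ a) (hb : InB μ b) : InB μ (a * b) := by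
  obtain ⟨n, hn⟩ := ha
  obtain ⟨k, hk⟩ := hb
  exact ⟨n + k, LF_mul hn hk⟩

theorem InB.ev (μ f : P3) : InB μ (ev μ f) := by
  induction f using MvPolynomial.induction_on with
  | C a => exact ⟨((0 : ℕ) : ℤ), ev_mem μ (isHomogeneous_C _ _)⟩
  | add p q hp hq => rw [map_add]; exact hp.add hq
  | mul_X p i hp => rw [map_mul]; exact hp.mul ⟨((1 : ℕ) : ℤ), ev_mem μ (isHomogeneous_X _ _)⟩

theorem InB.of (μ : P3) (q : Polynomial ℂ) :
    InB μ (algebraMap kx (KG μ) (algebraMap (Polynomial ℂ) kx q)) := by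
  induction q using Polynomial.induction_on with
  | C a =>
    have : algebraMap kx (KG μ) (algebraMap (Polynomial ℂ) kx (Polynomial.C a)) =
        Pool.Agent.Helper89.OS.ev μ (C a) := by
      rw [ev_apply, psi_C]
      rfl
    rw [this]
    exact InB.ev μ _
  | add p q hp hq => rw [map_add, map_add]; exact hp.add hq
  | monomial n a h =>
    rw [pow_succ, ← mul_assoc, map_mul, map_mul, ← ev_X1]
    exact h.mul (InB.ev μ _)

/-- elements with a denominator -/
def InD (μ : P3) (z : KG μ) : Prop := ∃ s : KG μ, s ≠ 0 ∧ InB μ s ∧ InB μ (s * z)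

variable {μ : P3} [Fact (Irreducible (psi μ))]

theorem InD.add {a b : KG μ} (ha : InD μ a) (hb : InD μ b) : InD μ (a + b) := by
  obtain ⟨s, hs0, hs, hsa⟩ := ha
  obtain ⟨t, ht0, ht, htb⟩ := hb
  refine ⟨s * t, mul_ne_zero hs0 ht0, hs.mul ht, ?_⟩
  have : s * t * (a + b) = (s * a) * t + s * (t * b) := by ring
  rw [this]
  exact (hsa.mul ht).add (hs.mul htb)

theorem InD.mul {a b : KG μ} (ha : InD μ a) (hb : InD μ b) : InD μ (a * b) := by
  obtain ⟨s, hs0, hs, hsa⟩ := ha
  obtain ⟨t, ht0, ht, htb⟩ := hb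
  refine ⟨s * t, mul_ne_zero hs0 ht0, hs.mul ht, ?_⟩
  have : s * t * (a * b) = (s * a) * (t * b) := by ring
  rw [this]
  exact hsa.mul htb

theorem InD.ofB {a : KG μ} (ha : InB μ a) : InD μ a :=
  ⟨1, one_ne_zero, by simpa using InB.ev μ 1, by rwa [one_mul]⟩

theorem InD.of (q : kx) : InD μ (algebraMap kx (KG μ) q) := by
  obtain ⟨n, d, rfl⟩ := IsLocalization.exists_mk'_eq (nonZeroDivisors (Polynomial ℂ)) q
  refine ⟨algebraMap kx (KG μ) (algebraMap (Polynomial ℂ) kx d), ?_, InB.of μ d, ?_⟩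
  · have hd : (d : Polynomial ℂ) ≠ 0 := nonZeroDivisors.coe_ne_zero d
    have h1 : algebraMap (Polynomial ℂ) kx d ≠ 0 := by
      intro h
      exact hd ((IsFractionRing.injective (Polynomial ℂ) kx) (by rw [h, map_zero]))
    intro h
    exact h1 ((algebraMap kx (KG μ)).injective (by rw [h, map_zero]))
  · rw [← map_mul, IsLocalization.mk'_spec'_mk]
    exact InB.of μ n

theorem InD.all (z : KG μ) : InD μ z := by
  induction z using AdjoinRoot.induction_on with
  | ih p =>
    induction p using Polynomial.induction_on with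
    | C a => exact InD.of a
    | add p q hp hq => rw [map_add]; exact hp.add hq
    | monomial n a h =>
      rw [pow_succ, ← mul_assoc, map_mul]
      refine h.mul (InD.ofB ?_)
      rw [AdjoinRoot.mk_X, ← ev_X2]
      exact InB.ev μ _

theorem den_fin {ι : Type*} (F : Finset ι) (u : ι → KG μ) :
    ∃ s : KG μ, s ≠ 0 ∧ InB μ s ∧ ∀ i ∈ F, InB μ (s * u i) := by
  classical
  induction F using Finset.induction_on with
  | empty => exact ⟨1, one_ne_zero, by simpa using InB.ev μ 1, by simp⟩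
  | insert a F ha ih =>
    obtain ⟨s, hs0, hs, hsu⟩ := ih
    obtain ⟨t, ht0, ht, htu⟩ := InD.all (u a)
    refine ⟨s * t, mul_ne_zero hs0 ht0, hs.mul ht, ?_⟩
    intro i hi
    rw [Finset.mem_insert] at hi
    rcases hi with rfl | hi
    · rw [mul_assoc]; exact hs.mul htu
    · have : s * t * u i = t * (s * u i) := by ring
      rw [this]
      exact ht.mul (hsu i hi)

theorem exists_bound {ι : Type*} (F : Finset ι) (u : ι → KG μ) (h : ∀ i ∈ F, InB μ (u i)) :
    ∃ n : ℤ, ∀ i ∈ F, u i ∈ LF μ n := by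
  classical
  induction F using Finset.induction_on with
  | empty => exact ⟨0, by simp⟩
  | insert a F ha ih =>
    obtain ⟨n, hn⟩ := ih (fun i hi => h i (Finset.mem_insert_of_mem hi))
    obtain ⟨k, hk⟩ := h a (Finset.mem_insert_self _ _)
    refine ⟨max n k, fun i hi => ?_⟩
    rw [Finset.mem_insert] at hi
    rcases hi with rfl | hi
    · exact LF_mono μ (le_max_right _ _) hk
    · exact LF_mono μ (le_max_left _ _) (hn i hi)

theorem MG_symm {M : Matrix (Fin 3) (Fin 3) P3} (h : M.IsSymm) : (MG μ M).IsSymm := by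
  rw [MG, Matrix.IsSymm, ← Matrix.transpose_map, h]

theorem MG_det (M : Matrix (Fin 3) (Fin 3) P3) : (MG μ M).det = ev μ M.det := by
  rw [MG]
  exact (RingHom.map_det (ev μ).toRingHom M).symm

theorem two_ne : (2 : KG μ) ≠ 0 := by
  have h : algebraMap ℂ (KG μ) 2 ≠ 0 := by
    intro h
    exact two_ne_zero ((algebraMap ℂ (KG μ)).injective (by rw [h, map_zero]))
  rwa [map_ofNat] at h

variable {δ g h : P3} {M : Matrix (Fin 3) (Fin 3) P3} {m e : ℕ}

theorem den_W (D : Dat δ μ g h M m e) (w : W4 (KG μ)) :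
    ∃ s : KG μ, s ≠ 0 ∧ ∃ c : ℤ, s • w ∈ VF μ δ M.adjugate m c := by
  have hδ := D.ev_δ
  have hdet : (MG μ M).det = ev μ δ := by rw [MG_det, D.hMd]
  -- the coordinates
  let u : Option (Fin 3) → KG μ := fun o => match o with
    | none => (ev μ δ)⁻¹ * w.1
    | some i => (ev μ δ)⁻¹ * ((MG μ M).adjugate.mulVec w.2) i
  obtain ⟨s, hs0, hs, hsu⟩ := den_fin Finset.univ u
  obtain ⟨n, hn⟩ := exists_bound (μ := μ) Finset.univ (fun o => s * u o)
    (fun o _ => hsu o (Finset.mem_univ o))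
  refine ⟨s, hs0, n - m + 4, ?_⟩
  have h1 : ((ev μ δ) * (s * u none), (0 : Fin 3 → KG μ)) ∈ VF μ δ M.adjugate m (n - m + 4) := by
    apply VF_fst D
    rw [show n - m + 4 + m - 4 = n by ring]
    exact hn none (Finset.mem_univ _)
  have h2 : ((0 : KG μ), (MG μ M).mulVec (fun i => s * u (some i))) ∈
      VF μ δ M.adjugate m (n - m + 4) := by
    apply VF_snd D
    intro i
    apply LF_mono μ (by omega : n ≤ n - m + 4 + m - 2)
    exact hn (some i) (Finset.mem_univ _)
  have h3 : s • w = ((ev μ δ) * (s * u none), (0 : Fin 3 → KG μ)) +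
      ((0 : KG μ), (MG μ M).mulVec (fun i => s * u (some i))) := by
    refine Prod.ext ?_ ?_
    · simp only [Prod.smul_fst, Prod.fst_add, add_zero, smul_eq_mul, u]
      field_simp
    · have e1 : (fun i => s * u (some i)) =
          (s * (ev μ δ)⁻¹) • ((MG μ M).adjugate.mulVec w.2) := by
        funext i
        simp only [u, Pi.smul_apply, smul_eq_mul]
        ring
      rw [e1, Matrix.mulVec_smul, Matrix.mulVec_mulVec, Matrix.mul_adjugate, hdet,
        Matrix.smul_mulVec, Matrix.one_mulVec, smul_smul]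
      simp only [Prod.smul_snd, Prod.snd_add, zero_add]
      congr 1
      field_simp
  rw [h3]
  exact Submodule.add_mem _ h1 h2

end Pool.Agent.Helper64.OS
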