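import Mathlib

set_option autoImplicit false

/-!
Project OS (MP_ffd2c1_ag), generic facts for piece X10: convex bounded integer functions are
eventually constant, convexity of the dimensions of a filtration, and dimension bounds from
independent vectors.
-/

namespace Pool.Agent.Helper64.OS

open Module

theorem conv_const (f : ℤ → ℤ) (j₁ C : ℤ)
    (hc : ∀ j, j₁ ≤ j → 2 * f (j + 1) ≤ f (j + 2) + f j)
    (hb : ∀ j, j₁ ≤ j → -C ≤ f j ∧ f j ≤ C) : ∃ τ j₂ : ℤ, ∀ j, j₂ ≤ j → f j = τ := by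
  have hmon : ∀ (j : ℤ) (n : ℕ), j₁ ≤ j → f (j + 1) - f j ≤ f (j + n + 1) - f (j + n) := by
    intro j n hj
    induction n with
    | zero => simp
    | succ n ih =>
      have h1 := hc (j + n) (by omega)
      have e1 : j + ((n + 1 : ℕ) : ℤ) + 1 = j + n + 2 := by push_cast; ring
      have e2 : j + ((n + 1 : ℕ) : ℤ) = j + n + 1 := by push_cast; ring
      rw [e1, e2]
      linarith
  have h1 : ∀ j, j₁ ≤ j → f (j + 1) - f j ≤ 0 := by
    intro j hj
    by_contra hpos
    have hpos' : 1 ≤ f (j + 1) - f j := by omega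
    have h2 : ∀ n : ℕ, f j + n ≤ f (j + n) := by
      intro n
      induction n with
      | zero => simp
      | succ n ih =>
        have h3 := hmon j n hj
        have e2 : j + ((n + 1 : ℕ) : ℤ) = j + n + 1 := by push_cast; ring
        rw [e2]
        push_cast
        linarith
    have h3 := h2 (2 * C + 1).toNat
    have h4 := hb j hj
    have h5 := hb (j + ((2 * C + 1).toNat : ℕ)) (by omega)
    omega
  have h2 : ∃ j, j₁ ≤ j ∧ 0 ≤ f (j + 1) - f j := by
    by_contra hno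
    push Not at hno
    have h2 : ∀ n : ℕ, f (j₁ + n) ≤ f j₁ - n := by
      intro n
      induction n with
      | zero => simp
      | succ n ih =>
        have h3 := hno (j₁ + n) (by omega)
        have e2 : j₁ + ((n + 1 : ℕ) : ℤ) = j₁ + n + 1 := by push_cast; ring
        rw [e2]
        push_cast
        linarith
    have h3 := h2 (2 * C + 1).toNat
    have h4 := hb j₁ le_rfl
    have h5 := hb (j₁ + ((2 * C + 1).toNat : ℕ)) (by omega)
    omega
  obtain ⟨j₂, hj₂, hj₂'⟩ := h2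
  refine ⟨f j₂, j₂, ?_⟩
  have key : ∀ n : ℕ, f (j₂ + n) = f j₂ := by
    intro n
    induction n with
    | zero => simp
    | succ n ih =>
      have h3 := hmon j₂ n hj₂
      have h4 := h1 (j₂ + n) (by omega)
      have e2 : j₂ + ((n + 1 : ℕ) : ℤ) = j₂ + n + 1 := by push_cast; ring
      rw [e2]
      linarith
  intro j hj
  have := key (j - j₂).toNat
  rwa [show j₂ + (((j - j₂).toNat : ℕ) : ℤ) = j by omega] at this

theorem fil_convex {V : Type*} [AddCommGroup V] [Module ℂ V] (x : V →ₗ[ℂ] V)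
    (hx0 : Function.Injective x) (A B C : Submodule ℂ V) [FiniteDimensional ℂ C]
    (hAB : A ≤ B) (hBC : B ≤ C) (hxB : ∀ v ∈ B, x v ∈ C)
    (hxs : ∀ v ∈ B, x v ∈ B → v ∈ A) :
    2 * finrank ℂ B ≤ finrank ℂ C + finrank ℂ A := by
  have : FiniteDimensional ℂ B := Submodule.finiteDimensional_of_le hBC
  have : FiniteDimensional ℂ A := Submodule.finiteDimensional_of_le hAB
  have h1 := Submodule.finrank_sup_add_finrank_inf_eq (B.map x) B
  have h2 : finrank ℂ (B.map x) = finrank ℂ B :=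
    (LinearEquiv.finrank_eq (Submodule.equivMapOfInjective x hx0 B)).symm
  have h3 : finrank ℂ (A.map x) = finrank ℂ A :=
    (LinearEquiv.finrank_eq (Submodule.equivMapOfInjective x hx0 A)).symm
  have h4 : B.map x ⊓ B ≤ A.map x := by
    rintro _ ⟨⟨v, hv, rfl⟩, h⟩
    exact ⟨v, hxs v hv h, rfl⟩
  have h5 := Submodule.finrank_mono h4
  have h6 : B.map x ⊔ B ≤ C := by
    apply sup_le _ hBC
    rintro _ ⟨v, hv, rfl⟩
    exact hxB v hv
  have h7 := Submodule.finrank_mono h6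
  omega

theorem two_indep {K W : Type*} [Field K] [Algebra ℂ K] [AddCommGroup W] [Module K W]
    [Module ℂ W] [IsScalarTower ℂ K W] (L : Submodule ℂ K) [FiniteDimensional ℂ L]
    (T V' : Submodule ℂ W) [FiniteDimensional ℂ V'] (hT : T ≤ V') (w₁ w₂ : W)
    (h1 : ∀ a ∈ L, a • w₁ ∈ V') (h2 : ∀ a ∈ L, a • w₂ ∈ V')
    (hind : ∀ a b : K, a • w₁ + b • w₂ ∈ T → a = 0 ∧ b = 0) :
    2 * finrank ℂ L + finrank ℂ T ≤ finrank ℂ V' := by
  have : FiniteDimensional ℂ T := Submodule.finiteDimensional_of_le hT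
  let f₁ : L →ₗ[ℂ] V' :=
    { toFun := fun a => ⟨(a : K) • w₁, h1 a a.2⟩
      map_add' := fun a b => Subtype.ext (by simp [add_smul])
      map_smul' := fun c a => Subtype.ext (by simp) }
  let f₂ : L →ₗ[ℂ] V' :=
    { toFun := fun a => ⟨(a : K) • w₂, h2 a a.2⟩
      map_add' := fun a b => Subtype.ext (by simp [add_smul])
      map_smul' := fun c a => Subtype.ext (by simp) }
  let φ : (L × L × T) →ₗ[ℂ] V' := f₁.coprod (f₂.coprod (Submodule.inclusion hT))
  have hφ : Function.Injective φ := by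
    rw [injective_iff_map_eq_zero]
    rintro ⟨a, b, t⟩ h
    have h3 : (a : K) • w₁ + ((b : K) • w₂ + (t : W)) = 0 := by
      have := congrArg (fun z : V' => (z : W)) h
      simpa [φ, f₁, f₂] using this
    have h4 : (a : K) • w₁ + (b : K) • w₂ ∈ T := by
      have : (a : K) • w₁ + (b : K) • w₂ = -(t : W) := by
        rw [← add_assoc] at h3
        exact eq_neg_of_add_eq_zero_left h3
      rw [this]
      exact T.neg_mem t.2
    obtain ⟨ha, hb⟩ := hind a b h4
    rw [ha, hb, zero_smul, zero_smul, zero_add, zero_add] at h3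
    have ha' : a = 0 := Subtype.ext ha
    have hb' : b = 0 := Subtype.ext hb
    have ht' : t = 0 := Subtype.ext h3
    rw [ha', hb', ht']
    rfl
  have h5 := LinearMap.finrank_le_finrank_of_injective hφ
  rw [finrank_prod, finrank_prod] at h5
  omega

theorem pair_indep {K W : Type*} [Field K] [AddCommGroup W] [Module K W] {P : Submodule K W}
    (b : Basis (Fin 2) K P) (a c : K) (h : a • (b 0 : W) + c • (b 1 : W) = 0) :
    a = 0 ∧ c = 0 := by
  have h1 := b.linearIndependent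
  rw [Fintype.linearIndependent_iff] at h1
  have h2 := h1 ![a, c] (by
    apply Subtype.ext
    simpa [Fin.sum_univ_two] using h)
  exact ⟨h2 0, h2 1⟩

theorem vecs_gen {K W : Type*} [Field K] [Algebra ℂ K] [AddCommGroup W] [Module K W]
    [Module ℂ W] [IsScalarTower ℂ K W] [FiniteDimensional K W] (T : Submodule K W)
    (hT : finrank K T = 2) (hW : finrank K W = 4) (VF : ℤ → Submodule ℂ W)
    (hmono : Monotone VF) (hden : ∀ w : W, ∃ s : K, s ≠ 0 ∧ ∃ c : ℤ, s • w ∈ VF c) :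
    ∃ (c : ℤ) (v w : Fin 2 → W), (∀ i, v i ∈ T) ∧ (∀ i, v i ∈ VF c) ∧
      (∀ i, w i ∈ VF c) ∧
      (∀ a b : K, a • v 0 + b • v 1 = 0 → a = 0 ∧ b = 0) ∧
      (∀ a b : K, a • w 0 + b • w 1 ∈ T → a = 0 ∧ b = 0) ∧
      (∀ q ∈ T, ∃ a b : K, q = a • v 0 + b • v 1) := by
  obtain ⟨C', hC'⟩ := Submodule.exists_isCompl T
  have hfr' : finrank K C' = 2 := by
    have := Submodule.finrank_add_eq_of_isCompl hC'
    omega
  have bT : Basis (Fin 2) K T := finBasisOfFinrankEq _ _ hT
  have bC : Basis (Fin 2) K C' := finBasisOfFinrankEq _ _ hfr'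
  choose s hs0 cs hs using hden
  have hs' : ∀ (w : W) (c : ℤ), cs w ≤ c → s w • w ∈ VF c := fun w c hc => hmono hc (hs w)
  refine ⟨max (max (cs (bT 0)) (cs (bT 1))) (max (cs (bC 0)) (cs (bC 1))),
    fun i => s (bT i) • (bT i : W), fun i => s (bC i) • (bC i : W), ?_, ?_, ?_, ?_, ?_, ?_⟩
  · intro i
    exact T.smul_mem _ (bT i).2
  · intro i
    apply hs'
    fin_cases i
    · exact (le_max_left _ _).trans (le_max_left _ _)
    · exact (le_max_right _ _).trans (le_max_left _ _)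
  · intro i
    apply hs'
    fin_cases i
    · exact (le_max_left _ _).trans (le_max_right _ _)
    · exact (le_max_right _ _).trans (le_max_right _ _)
  · intro a b hab
    rw [smul_smul, smul_smul] at hab
    obtain ⟨h1, h2⟩ := pair_indep bT _ _ hab
    exact ⟨(mul_eq_zero.mp h1).resolve_right (hs0 _), (mul_eq_zero.mp h2).resolve_right (hs0 _)⟩
  · intro a b hab
    rw [smul_smul, smul_smul] at hab
    have hC : (a * s (bC 0)) • (bC 0 : W) + (b * s (bC 1)) • (bC 1 : W) ∈ C' :=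
      C'.add_mem (C'.smul_mem _ (bC 0).2) (C'.smul_mem _ (bC 1).2)
    have h0 : (a * s (bC 0)) • (bC 0 : W) + (b * s (bC 1)) • (bC 1 : W) ∈
        T ⊓ C' := ⟨hab, hC⟩
    rw [hC'.inf_eq_bot, Submodule.mem_bot] at h0
    obtain ⟨h1, h2⟩ := pair_indep bC _ _ h0
    exact ⟨(mul_eq_zero.mp h1).resolve_right (hs0 _), (mul_eq_zero.mp h2).resolve_right (hs0 _)⟩
  · intro q hq
    have h1 := bT.sum_repr ⟨q, hq⟩
    rw [Fin.sum_univ_two] at h1
    have h2 := congrArg (fun z : T => (z : W)) h1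
    simp only [Submodule.coe_add, Submodule.coe_smul] at h2
    refine ⟨bT.repr ⟨q, hq⟩ 0 * (s (bT 0))⁻¹, bT.repr ⟨q, hq⟩ 1 * (s (bT 1))⁻¹, ?_⟩
    rw [smul_smul, smul_smul, inv_mul_cancel_right₀ (hs0 _), inv_mul_cancel_right₀ (hs0 _)]
    exact h2.symm

theorem growth_gen {K W : Type*} [Field K] [Algebra ℂ K] [AddCommGroup W] [Module K W]
    [Module ℂ W] [IsScalarTower ℂ K W] (T : Submodule K W) (x : K) (hx0 : x ≠ 0)
    (LF : ℤ → Submodule ℂ K) (hLfin : ∀ n, FiniteDimensional ℂ (LF n))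
    (VF : ℤ → Submodule ℂ W) (hVfin : ∀ n, FiniteDimensional ℂ (VF n))
    (hmono : Monotone VF) (hsm : ∀ (i j : ℤ) (b : K) (v : W), b ∈ LF i → v ∈ VF j →
      b • v ∈ VF (i + j))
    (hx1 : x ∈ LF 1) (hxs : ∀ (i n : ℤ) (v : W), v ∈ VF i → x • v ∈ VF (n + 1) → v ∈ VF n)
    (d a n₀ j₁ : ℤ) (hLd : ∀ n, n₀ ≤ n → (finrank ℂ (LF n) : ℤ) = d * (n + a))
    (hVd : ∀ j, j₁ ≤ j → (finrank ℂ (VF (j + 1)) : ℤ) = finrank ℂ (VF j) + 4 * d)
    (c : ℤ) (v w : Fin 2 → W) (hvT : ∀ i, v i ∈ T) (hvc : ∀ i, v i ∈ VF c)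
    (hwc : ∀ i, w i ∈ VF c) (hv : ∀ a b : K, a • v 0 + b • v 1 = 0 → a = 0 ∧ b = 0)
    (hw : ∀ a b : K, a • w 0 + b • w 1 ∈ T → a = 0 ∧ b = 0) :
    ∃ τ j₂ : ℤ, ∀ j, j₂ ≤ j →
      (finrank ℂ ↥(T.restrictScalars ℂ ⊓ VF j) : ℤ) = 2 * d * j + τ := by
  have hTfin : ∀ j, FiniteDimensional ℂ ↥(T.restrictScalars ℂ ⊓ VF j) := fun j =>
    Submodule.finiteDimensional_of_le inf_le_right
  have hTmono : Monotone fun j => T.restrictScalars ℂ ⊓ VF j := fun i j hij =>
    inf_le_inf_left _ (hmono hij)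
  let X : W →ₗ[ℂ] W :=
    { toFun := fun v => x • v
      map_add' := fun v w => smul_add _ _ _
      map_smul' := fun c v => by rw [RingHom.id_apply]; exact smul_comm _ _ _ }
  have hX : ∀ v, X v = x • v := fun v => rfl
  have hXinj : Function.Injective X := fun v w h => by
    rw [hX, hX] at h
    exact smul_right_injective W hx0 h
  have hXF : ∀ j, ∀ v ∈ VF j, X v ∈ VF (j + 1) := fun j v hv => by
    rw [hX, add_comm]
    exact hsm 1 j x v hx1 hv
  have low : ∀ j, 2 * finrank ℂ (LF (j - c)) ≤ finrank ℂ ↥(T.restrictScalars ℂ ⊓ VF j) := by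
    intro j
    have h1 := two_indep (LF (j - c)) (⊥ : Submodule ℂ W) (T.restrictScalars ℂ ⊓ VF j) bot_le
      (v 0) (v 1)
      (fun a ha => ⟨T.smul_mem _ (hvT 0), by
        have := hsm _ _ a (v 0) ha (hvc 0)
        rwa [sub_add_cancel] at this⟩)
      (fun a ha => ⟨T.smul_mem _ (hvT 1), by
        have := hsm _ _ a (v 1) ha (hvc 1)
        rwa [sub_add_cancel] at this⟩)
      (fun a b hab => hv a b ((Submodule.mem_bot ℂ).mp hab))
    rw [finrank_bot] at h1
    omega
  have upp : ∀ j, 2 * finrank ℂ (LF (j - c)) + finrank ℂ ↥(T.restrictScalars ℂ ⊓ VF j) ≤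
      finrank ℂ (VF j) := by
    intro j
    exact two_indep (LF (j - c)) (T.restrictScalars ℂ ⊓ VF j) (VF j) inf_le_right
      (w 0) (w 1)
      (fun a ha => by
        have := hsm _ _ a (w 0) ha (hwc 0)
        rwa [sub_add_cancel] at this)
      (fun a ha => by
        have := hsm _ _ a (w 1) ha (hwc 1)
        rwa [sub_add_cancel] at this)
      (fun a b hab => hw a b hab.1)
  have hVd' : ∀ (j : ℤ) (n : ℕ), j₁ ≤ j →
      (finrank ℂ (VF (j + n)) : ℤ) = finrank ℂ (VF j) + 4 * d * n := by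
    intro j n hj
    induction n with
    | zero => rw [Nat.cast_zero, add_zero, mul_zero, add_zero]
    | succ n ih =>
      rw [show j + ((n + 1 : ℕ) : ℤ) = j + n + 1 by push_cast; ring, hVd _ (by omega), ih]
      push_cast; ring
  set J : ℤ := max j₁ (n₀ + c) with hJ
  set F : ℤ → ℤ := fun j => (finrank ℂ ↥(T.restrictScalars ℂ ⊓ VF j) : ℤ) - 2 * d * j with hF
  obtain ⟨τ, j₂, hτ⟩ := conv_const F J
    (|2 * d * (a - c)| + |(finrank ℂ (VF J) : ℤ) - 4 * d * J - 2 * d * (a - c)|)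
    (by
      intro j hj
      have h1 := fil_convex X hXinj (T.restrictScalars ℂ ⊓ VF j)
        (T.restrictScalars ℂ ⊓ VF (j + 1)) (T.restrictScalars ℂ ⊓ VF (j + 1 + 1))
        (hTmono (by omega)) (hTmono (by omega))
        (fun v hv => ⟨T.smul_mem _ hv.1, hXF _ v hv.2⟩)
        (fun v hv hv' => ⟨hv.1, hxs _ _ v hv.2 hv'.2⟩)
      simp only [hF]
      have h2 : (2 : ℤ) * finrank ℂ ↥(T.restrictScalars ℂ ⊓ VF (j + 1)) ≤
          finrank ℂ ↥(T.restrictScalars ℂ ⊓ VF (j + 1 + 1)) +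
          finrank ℂ ↥(T.restrictScalars ℂ ⊓ VF j) := by exact_mod_cast h1
      rw [show j + 1 + 1 = j + 2 by ring] at h2
      linarith)
    (by
      intro j hj
      have hj1 : j₁ ≤ j := (le_max_left _ _).trans hj
      have hJ1 : j₁ ≤ J := le_max_left _ _
      have hj2 : n₀ + c ≤ j := (le_max_right _ _).trans hj
      have h1 : (2 : ℤ) * finrank ℂ (LF (j - c)) ≤
        finrank ℂ ↥(T.restrictScalars ℂ ⊓ VF j) := by exact_mod_cast low j
      have h2 : (2 : ℤ) * finrank ℂ (LF (j - c)) + finrank ℂ ↥(T.restrictScalars ℂ ⊓ VF j) ≤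
        finrank ℂ (VF j) := by exact_mod_cast upp j
      have h3 := hVd' J (j - J).toNat hJ1
      rw [show J + (((j - J).toNat : ℕ) : ℤ) = j by omega,
        show (((j - J).toNat : ℕ) : ℤ) = j - J by omega] at h3
      rw [hLd _ (by omega)] at h1 h2
      rw [h3] at h2
      simp only [hF]
      have h4 := neg_abs_le (2 * d * (a - c))
      have h5 := le_abs_self (2 * d * (a - c))
      have h6 := neg_abs_le ((finrank ℂ (VF J) : ℤ) - 4 * d * J - 2 * d * (a - c))
      have h7 := le_abs_self ((finrank ℂ (VF J) : ℤ) - 4 * d * J - 2 * d * (a - c))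
      have h8 := abs_nonneg (2 * d * (a - c))
      have h9 := abs_nonneg ((finrank ℂ (VF J) : ℤ) - 4 * d * J - 2 * d * (a - c))
      constructor
      · linarith
      · linarith)
  refine ⟨τ, j₂, fun j hj => ?_⟩
  have := hτ j hj
  simp only [hF] at this
  linarith

end Pool.Agent.Helper64.OS
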