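import Mathlib
import Pool.Agent.Helper89.OS.St.X2

set_option autoImplicit false

/-!
Project OS (MP_ffd2c1_ag), piece X10: the parity lemma for lattices over the ring of the curve.
-/

namespace Pool.Agent.Helper64.OS

open Module Pool.Agent.Helper89.OS

theorem parity_gen {K W k₀ : Type*} [Field K] [Algebra ℂ K] [AddCommGroup W] [Module K W]
    [Module ℂ W] [IsScalarTower ℂ K W] [CommRing k₀] [Algebra (Polynomial ℂ) k₀] [Algebra ℂ k₀]
    [IsScalarTower ℂ (Polynomial ℂ) k₀]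
    (hι : Function.Injective (algebraMap (Polynomial ℂ) k₀))
    (T : Submodule K W) (x : K) (hx0 : x ≠ 0)
    (LF : ℤ → Submodule ℂ K)
    (VF : ℤ → Submodule ℂ W) (hVfin : ∀ n, FiniteDimensional ℂ (VF n))
    (hmono : Monotone VF) (hsm : ∀ (i j : ℤ) (b : K) (v : W), b ∈ LF i → v ∈ VF j →
      b • v ∈ VF (i + j))
    (hx1 : x ∈ LF 1) (hxs : ∀ (i n : ℤ) (v : W), v ∈ VF i → x • v ∈ VF (n + 1) → v ∈ VF n)
    (j₀ : ℤ) (hbot : VF j₀ = ⊥)
    (q : W → W → K) (hqa : ∀ u v w, q (u + v) w = q u w + q v w)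
    (hqs : ∀ (t : K) (u w : W), q (t • u) w = t * q u w) (hqsym : ∀ u w, q u w = q w u)
    (lam : K →ₗ[ℂ] k₀)
    (hlx : ∀ z, lam (x * z) = algebraMap (Polynomial ℂ) k₀ Polynomial.X * lam z)
    (m : ℤ) (hl1 : ∀ (n : ℤ) (b : K), b ∈ LF n → ∃ p : Polynomial ℂ,
      lam b = algebraMap (Polynomial ℂ) k₀ p ∧ ∀ k : ℕ, n - 2 * m < k → p.coeff k = 0)
    (hl2 : ∀ (n : ℤ) (b : K), b ∈ LF n → b ≠ 0 → ∃ b' ∈ LF (2 * m), lam (b' * b) ≠ 0)
    (hq : ∀ (i j : ℤ) (v w : W), v ∈ VF i → w ∈ VF j → q v w ∈ LF (i + j + 2 * m - 2))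
    (i₀ : ℤ) (hpair : ∀ j, ∀ v ∈ VF j, v ∉ VF (j - 1) → ∀ i, i₀ ≤ i → ∃ w ∈ VF i,
      ∃ (p : Polynomial ℂ) (k : ℕ), (k : ℤ) = i + j - 2 ∧
        lam (q v w) = algebraMap (Polynomial ℂ) k₀ p ∧ p.coeff k ≠ 0)
    (hTiso : ∀ v ∈ T, ∀ w ∈ T, q v w = 0) (hTperp : ∀ v, (∀ w ∈ T, q v w = 0) → v ∈ T)
    (c : ℤ) (v : Fin 2 → W) (hvT : ∀ i, v i ∈ T) (hvc : ∀ i, v i ∈ VF c)
    (hspan : ∀ w ∈ T, ∃ a b : K, w = a • v 0 + b • v 1)
    (r τ j₁ : ℤ) (hV : ∀ j, j₁ ≤ j → (finrank ℂ (VF (j + 1)) : ℤ) = finrank ℂ (VF j) + 2 * r)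
    (hV' : ∀ j, j₁ ≤ j → 2 * r * j ≤ finrank ℂ (VF j))
    (hT : ∀ j, j₁ ≤ j → (finrank ℂ ↥(T.restrictScalars ℂ ⊓ VF j) : ℤ) = r * j + τ) :
    (finrank ℂ (VF 0) : ℤ) % 2 = τ % 2 := by
  obtain ⟨ρ, hρ⟩ := LinearMap.exists_leftInverse_of_injective
    ((Algebra.linearMap (Polynomial ℂ) k₀).restrictScalars ℂ)
    (LinearMap.ker_eq_bot.mpr hι)
  have hρ' : ∀ p : Polynomial ℂ, ρ (algebraMap (Polynomial ℂ) k₀ p) = p := fun p =>
    LinearMap.congr_fun hρ p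
  have hqa' : ∀ u v w, q u (v + w) = q u v + q u w := fun u v w => by
    rw [hqsym, hqa, hqsym v, hqsym w]
  have hqs' : ∀ (t : K) (u w : W), q u (t • w) = t * q u w := fun t u w => by
    rw [hqsym, hqs, hqsym w]
  have hqc : ∀ (t : ℂ) (u w : W), q (t • u) w = t • q u w := fun t u w => by
    rw [← algebraMap_smul K t u, hqs, Algebra.smul_def]
  have hqc' : ∀ (t : ℂ) (u w : W), q u (t • w) = t • q u w := fun t u w => by
    rw [← algebraMap_smul K t w, hqs', Algebra.smul_def]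
  let β : W →ₗ[ℂ] W →ₗ[ℂ] Polynomial ℂ := LinearMap.mk₂ ℂ (fun v w => ρ (lam (q v w)))
    (fun u v w => by rw [hqa, map_add, map_add])
    (fun t u w => by rw [hqc, map_smul, map_smul])
    (fun u v w => by rw [hqa', map_add, map_add])
    (fun t u w => by rw [hqc', map_smul, map_smul])
  have hβ : ∀ v w, β v w = ρ (lam (q v w)) := fun v w => rfl
  let X : W →ₗ[ℂ] W :=
    { toFun := fun v => x • v
      map_add' := fun v w => smul_add _ _ _
      map_smul' := fun c v => by rw [RingHom.id_apply]; exact smul_comm _ _ _ }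
  have hX : ∀ v, X v = x • v := fun v => rfl
  have hXinj : Function.Injective X := fun v w h => by
    rw [hX, hX] at h
    exact smul_right_injective W hx0 h
  have hXF : ∀ j, ∀ v ∈ VF j, X v ∈ VF (j + 1) := fun j v hv => by
    rw [hX, add_comm]
    exact hsm 1 j x v hx1 hv
  refine filt_parity' X VF hmono hVfin hXinj hXF (fun i j v hv hxv => hxs i j v hv hxv) j₀ hbot β
    (fun v w => by rw [hβ, hβ, hqsym]) ?_ ?_ i₀ ?_ (T.restrictScalars ℂ)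
    (fun v hv => T.smul_mem _ hv)
    (fun v hv w hw => by rw [hβ, hTiso v hv w hw, map_zero, map_zero]) (2 * m + c) ?_
    r τ j₁ hV hV' hT
  · intro i j v hv w hw
    obtain ⟨p, hp, -⟩ := hl1 _ _ (hq i j v w hv hw)
    rw [hβ, hβ, hX, hqs, hlx, hp, ← map_mul, hρ', hρ']
  · intro i j v hv w hw n hn
    obtain ⟨p, hp, hp'⟩ := hl1 _ _ (hq i j v w hv hw)
    rw [hβ, hp, hρ']
    apply hp'
    linarith
  · intro j v hv hv' i hi
    obtain ⟨w, hw, p, k, hk, hp, hne⟩ := hpair j v hv hv' i hi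
    refine ⟨w, hw, k, hk, ?_⟩
    rw [hβ, hp, hρ']
    exact hne
  · intro i u hu h
    apply hTperp
    have h0 : ∀ l, q u (v l) = 0 := by
      intro l
      by_contra hne
      obtain ⟨b', hb', hlam⟩ := hl2 _ _ (hq i c u (v l) hu (hvc l)) hne
      have h1 := h (b' • v l) ⟨T.smul_mem _ (hvT l), hsm _ _ _ _ hb' (hvc l)⟩
      rw [hβ, hqs'] at h1
      have h2 : b' * q u (v l) ∈ LF (i + (2 * m + c) + 2 * m - 2) := by
        rw [← hqs']
        exact hq _ _ _ _ hu (hsm _ _ _ _ hb' (hvc l))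
      obtain ⟨p, hp, -⟩ := hl1 _ _ h2
      rw [hp, hρ'] at h1
      apply hlam
      rw [hp, h1, map_zero]
    intro w hw
    obtain ⟨a, b, rfl⟩ := hspan w hw
    rw [hqa', hqs', hqs', h0, h0, mul_zero, mul_zero, add_zero]

end Pool.Agent.Helper64.OS
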