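import Mathlib
import Pool.Agent.Helper64.OS.Den
import Pool.Agent.Helper64.OS.Grow
import Pool.Agent.Helper89.OS.St.X8

set_option autoImplicit false

/-!
Project OS (MP_ffd2c1_ag), piece X10: bases of the left ideal, growth of the filtered lattice.
-/

namespace Pool.Agent.Helper64.OS

open MvPolynomial Pool.Agent.Helper29.HP Pool.Agent.Helper89.OS Module

theorem eval_hom_smul {φ : P3} {n : ℕ} (h : φ.IsHomogeneous n) (c : ℂ) (g : Fin 3 → ℂ) :
    eval (c • g) φ = c ^ n * eval g φ := by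
  rw [eval_eq, eval_eq, Finset.mul_sum]
  refine Finset.sum_congr rfl fun d hd => ?_
  have hn := h.degree_eq_sum_deg_support hd
  simp only [Pi.smul_apply, smul_eq_mul, mul_pow]
  rw [Finset.prod_mul_distrib, Finset.prod_pow_eq_pow_sum]
  rw [← hn]
  ring

theorem hcz_X1 {μ : P3} {m : ℕ} (hc : Cur μ m) (z : Fin 3 → ℂ) (hz : z ≠ 0) (hz0 : z 0 = 0)
    (hμ : eval z μ = 0) : eval z (X 1 : P3) ≠ 0 := by
  rw [eval_X]
  intro hz1
  have e : z = z 2 • ![0, 0, 1] := by
    funext i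
    fin_cases i
    · simpa using hz0
    · simpa using hz1
    · simp
  have h2 : z 2 ≠ 0 := by
    intro h
    apply hz
    rw [e, h, zero_smul]
  rw [e, eval_hom_smul hc.hom] at hμ
  rcases mul_eq_zero.mp hμ with h | h
  · exact h2 (pow_eq_zero_iff (by omega) |>.mp h)
  · exact hc.gp h

/-- multiplication by the coordinate -/
noncomputable def mx (μ : P3) : W4 (KG μ) →ₗ[ℂ] W4 (KG μ) where
  toFun v := ev μ (X 1) • v
  map_add' v w := smul_add _ v w
  map_smul' c v := by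
    rw [RingHom.id_apply]
    exact smul_comm _ _ _

theorem mx_apply (μ : P3) (v : W4 (KG μ)) : mx μ v = ev μ (X 1) • v := rfl

theorem nb_add_right {R : Type*} [CommRing R] (M : Matrix (Fin 3) (Fin 3) R) (p q q' : W4 R) :
    nb M p (q + q') = nb M p q + nb M p q' := by
  simp only [nb, Prod.fst_add, Prod.snd_add, Matrix.mulVec_add, dotProduct_add]; ring

theorem nb_smul_right {R : Type*} [CommRing R] (M : Matrix (Fin 3) (Fin 3) R) (t : R)
    (p q : W4 R) : nb M p (t • q) = t * nb M p q := by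
  simp only [nb, Prod.smul_fst, Prod.smul_snd, Matrix.mulVec_smul, dotProduct_smul,
      smul_eq_mul]; ring

theorem nb_symm {R : Type*} [CommRing R] {M : Matrix (Fin 3) (Fin 3) R} (hM : M.IsSymm)
    (p q : W4 R) : nb M p q = nb M q p := by
  have hA : M.adjugate.IsSymm := by
    rw [Matrix.IsSymm, Matrix.adjugate_transpose, hM]
  simp only [nb]
  rw [mul_comm p.1, Matrix.dotProduct_mulVec, ← Matrix.mulVec_transpose, hA, dotProduct_comm]

variable {μ : P3} [Fact (Irreducible (psi μ))]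

theorem ev_X1_ne : ev μ (X 1) ≠ 0 := by
  rw [ev_X1]
  intro h
  have h1 := (algebraMap kx (KG μ)).injective (h.trans (map_zero _).symm)
  have h2 := IsFractionRing.injective (Polynomial ℂ) kx (h1.trans (map_zero _).symm)
  exact Polynomial.X_ne_zero h2

theorem mx_inj : Function.Injective (mx μ) := by
  intro v w h
  rw [mx_apply, mx_apply] at h
  exact smul_right_injective (W4 (KG μ)) ev_X1_ne h

variable {δ g h : P3} {M : Matrix (Fin 3) (Fin 3) P3} {m e : ℕ}

theorem finrank_W4 : finrank (KG μ) (W4 (KG μ)) = 4 := by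
  rw [finrank_prod, finrank_self, finrank_fin_fun]


theorem TK_fr (D : Dat δ μ g h M m e) (ν : Fin 3 → KG μ)
    (hν0 : ν ≠ 0) (hν : ν ⬝ᵥ (MG μ M).adjugate.mulVec ν = 0) :
    finrank (KG μ) (TK μ M ν) = 2 := by
  have hdet : (MG μ M).det ≠ 0 := by rw [MG_det, D.hMd]; exact D.ev_δ
  have h1 := @T_finrank (KG μ) AdjoinRoot.instField (MG μ M) (MG_symm D.hMs) hdet ν hν0
  exact h1 hν two_ne

theorem TK_vecs (D : Dat δ μ g h M m e) (ν : Fin 3 → KG μ)
    (hν0 : ν ≠ 0) (hν : ν ⬝ᵥ (MG μ M).adjugate.mulVec ν = 0) :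
    ∃ (c : ℤ) (v w : Fin 2 → W4 (KG μ)), (∀ i, v i ∈ TK μ M ν) ∧
      (∀ i, v i ∈ VF μ δ M.adjugate m c) ∧
      (∀ i, w i ∈ VF μ δ M.adjugate m c) ∧
      (∀ a b : KG μ, a • v 0 + b • v 1 = 0 → a = 0 ∧ b = 0) ∧
      (∀ a b : KG μ, a • w 0 + b • w 1 ∈ TK μ M ν → a = 0 ∧ b = 0) ∧
      (∀ q ∈ TK μ M ν, ∃ a b : KG μ, q = a • v 0 + b • v 1) := by
  have h1 := @vecs_gen (KG μ) (W4 (KG μ)) AdjoinRoot.instField _ _ _ _ _ _ (TK μ M ν)
    (TK_fr D ν hν0 hν) finrank_W4 (VF μ δ M.adjugate m) (VF_mono D) (fun w => den_W D w)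
  exact h1

end Pool.Agent.Helper64.OS
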