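import Mathlib
import Pool.Agent.Helper64.OS.TB

set_option autoImplicit false

namespace Pool.Agent.Helper64.OS

open MvPolynomial Pool.Agent.Helper29.HP Module Pool.Agent.Helper89.OS

theorem nb_fst {R : Type*} [CommRing R] (M : Matrix (Fin 3) (Fin 3) R) (v : W4 R) (t : R) :
    nb M v (t, 0) = v.1 * t := by
  simp [nb]

theorem nb_snd {R : Type*} [CommRing R] (M : Matrix (Fin 3) (Fin 3) R) (v : W4 R)
    (u : Fin 3 → R) : nb M v (0, M.mulVec u) = M.det * (v.2 ⬝ᵥ u) := by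
  simp only [nb, mul_zero, zero_add]
  rw [Matrix.mulVec_mulVec, Matrix.adjugate_mul, Matrix.smul_mulVec, Matrix.one_mulVec,
    dotProduct_smul, smul_eq_mul]

theorem nb_add_left {R : Type*} [CommRing R] (M : Matrix (Fin 3) (Fin 3) R) (p p' q : W4 R) :
    nb M (p + p') q = nb M p q + nb M p' q := by
  simp only [nb, Prod.fst_add, Prod.snd_add, add_dotProduct]; ring

theorem nb_smul_left {R : Type*} [CommRing R] (M : Matrix (Fin 3) (Fin 3) R) (t : R)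
    (p q : W4 R) : nb M (t • p) q = t * nb M p q := by
  simp only [nb, Prod.smul_fst, Prod.smul_snd, smul_dotProduct, smul_eq_mul]; ring

variable {μ : P3} [Fact (Irreducible (psi μ))]
variable {δ g h : P3} {M : Matrix (Fin 3) (Fin 3) P3} {m e : ℕ}

/-- the form divided by the determinant -/
noncomputable def qf (μ δ : P3) (M : Matrix (Fin 3) (Fin 3) P3) [Fact (Irreducible (psi μ))]
    (v w : W4 (KG μ)) : KG μ := (ev μ δ)⁻¹ * nb (MG μ M) v w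

theorem qf_eq (D : Dat δ μ g h M m e) {v w : W4 (KG μ)} {r : KG μ}
    (hr : nb (MG μ M) v w = ev μ δ * r) : qf μ δ M v w = r := by
  rw [qf, hr, inv_mul_cancel_left₀ D.ev_δ]

theorem qf_add (u v w : W4 (KG μ)) : qf μ δ M (u + v) w = qf μ δ M u w + qf μ δ M v w := by
  rw [qf, qf, qf, nb_add_left, mul_add]

theorem qf_smul (t : KG μ) (u w : W4 (KG μ)) : qf μ δ M (t • u) w = t * qf μ δ M u w := by
  rw [qf, qf, nb_smul_left, mul_left_comm]

theorem qf_symm (hM : M.IsSymm) (u w : W4 (KG μ)) : qf μ δ M u w = qf μ δ M w u := by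
  rw [qf, qf, nb_symm (MG_symm hM)]

theorem qf_mem (D : Dat δ μ g h M m e) (i j : ℤ) (v w : W4 (KG μ))
    (hv : v ∈ VF μ δ M.adjugate m i) (hw : w ∈ VF μ δ M.adjugate m j) :
    qf μ δ M v w ∈ LF μ (i + j + 2 * m - 2) := by
  obtain ⟨r, hr, hr'⟩ := VF_nb D hv hw
  rw [qf_eq D hr'.symm]
  exact hr

theorem qf_iso (D : Dat δ μ g h M m e) (ν : Fin 3 → KG μ)
    (hν0 : ν ≠ 0) (hν : ν ⬝ᵥ (MG μ M).adjugate.mulVec ν = 0) (v : W4 (KG μ))
    (hv : v ∈ TK μ M ν) (w : W4 (KG μ)) (hw : w ∈ TK μ M ν) : qf μ δ M v w = 0 := by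
  have hdet : (MG μ M).det ≠ 0 := by rw [MG_det, D.hMd]; exact D.ev_δ
  have h1 := @T_iso (KG μ) AdjoinRoot.instField (MG μ M) (MG_symm D.hMs) hdet ν hν0
  have h2 := h1 hν two_ne (p := v) (q := w) hv hw
  rw [qf, h2, mul_zero]

theorem qf_perp (D : Dat δ μ g h M m e) (ν : Fin 3 → KG μ)
    (hν0 : ν ≠ 0) (hν : ν ⬝ᵥ (MG μ M).adjugate.mulVec ν = 0) (v : W4 (KG μ))
    (hv : ∀ w ∈ TK μ M ν, qf μ δ M v w = 0) : v ∈ TK μ M ν := by
  have hdet : (MG μ M).det ≠ 0 := by rw [MG_det, D.hMd]; exact D.ev_δ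
  have h1 := @T_perp (KG μ) AdjoinRoot.instField (MG μ M) (MG_symm D.hMs) hdet ν hν0
  refine h1 hν two_ne (p := v) ?_
  intro q hq
  have h2 := hv q hq
  rw [qf] at h2
  have h3 := mul_inv_cancel_left₀ D.ev_δ (nb (MG μ M) v q)
  rw [h2, mul_zero] at h3
  exact h3.symm

theorem lam_ne (lam : KG μ →ₗ[kx] kx)
    (hl2 : ∀ (j : ℤ) (b : KG μ), b ∈ LF μ j → b ∉ LF μ (j - 1) → ∀ i : ℤ, 2 * m ≤ i →
        ∃ b' ∈ LF μ i, ∃ (p : Polynomial ℂ) (k : ℕ), (k : ℤ) = i + j - 2 * m ∧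
          lam (b * b') = algebraMap (Polynomial ℂ) kx p ∧ p.coeff k ≠ 0)
    (n : ℤ) (b : KG μ) (hb : b ∈ LF μ n) (hb0 : b ≠ 0) :
    ∃ b' ∈ LF μ (2 * m), lam (b' * b) ≠ 0 := by
  obtain ⟨j, hj, hjm⟩ := Int.exists_least_of_bdd (P := fun z => b ∈ LF μ z)
    ⟨0, fun z hz => by
      by_contra hlt
      rw [LF_neg μ (by omega : z < 0), Submodule.mem_bot] at hz
      exact hb0 hz⟩ ⟨n, hb⟩
  obtain ⟨b', hb', p, k, hk, hp, hne⟩ := hl2 j b hj
    (fun h => by have := hjm _ h; omega) (2 * m) le_rfl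
  refine ⟨b', hb', ?_⟩
  rw [mul_comm, hp]
  intro h0
  apply hne
  have h1 := IsFractionRing.injective (Polynomial ℂ) kx (h0.trans (map_zero _).symm)
  rw [h1, Polynomial.coeff_zero]

theorem qf_pair (D : Dat δ μ g h M m e) (lam : KG μ →ₗ[kx] kx)
    (hl2 : ∀ (j : ℤ) (b : KG μ), b ∈ LF μ j → b ∉ LF μ (j - 1) → ∀ i : ℤ, 2 * m ≤ i →
        ∃ b' ∈ LF μ i, ∃ (p : Polynomial ℂ) (k : ℕ), (k : ℤ) = i + j - 2 * m ∧
          lam (b * b') = algebraMap (Polynomial ℂ) kx p ∧ p.coeff k ≠ 0)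
    (j : ℤ) (v : W4 (KG μ)) (hv : v ∈ VF μ δ M.adjugate m j)
    (hv' : v ∉ VF μ δ M.adjugate m (j - 1)) (i : ℤ) (hi : m + 4 ≤ i) :
    ∃ w ∈ VF μ δ M.adjugate m i, ∃ (p : Polynomial ℂ) (k : ℕ), (k : ℤ) = i + j - 2 ∧
        lam (qf μ δ M v w) = algebraMap (Polynomial ℂ) kx p ∧ p.coeff k ≠ 0 := by
  obtain ⟨h1, h2⟩ := VF_LF D hv
  by_cases h3 : v.1 ∈ LF μ (j - 1 + m + 2)
  · have h4 : ∃ k₀, v.2 k₀ ∉ LF μ (j - 1 + m) := by
      by_contra hno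
      push Not at hno
      exact hv' (VF_of_LF D hv h3 hno)
    obtain ⟨k₀, hk₀⟩ := h4
    obtain ⟨b', hb', p, k, hk, hp, hne⟩ := hl2 (j + m) (v.2 k₀) (h2 k₀)
      (by rwa [show j + m - 1 = j - 1 + m by ring]) (i + m - 2) (by omega)
    refine ⟨(0, (MG μ M).mulVec (Pi.single k₀ b')), VF_snd D ?_, p, k, by omega, ?_, hne⟩
    · intro l
      by_cases hl : l = k₀
      · rw [hl, Pi.single_eq_same]; exact hb'
      · rw [Pi.single_eq_of_ne hl]; exact Submodule.zero_mem _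
    · have e1 : nb (MG μ M) v (0, (MG μ M).mulVec (Pi.single k₀ b')) =
          ev μ δ * (v.2 k₀ * b') := by
        rw [nb_snd, MG_det, D.hMd, dotProduct_single]
      rw [qf_eq D e1, hp]
  · obtain ⟨b', hb', p, k, hk, hp, hne⟩ := hl2 (j + m + 2) v.1 h1
      (by rwa [show j + m + 2 - 1 = j - 1 + m + 2 by ring]) (i + m - 4) (by omega)
    refine ⟨(ev μ δ * b', 0), VF_fst D hb', p, k, by omega, ?_, hne⟩
    have e1 : nb (MG μ M) v (ev μ δ * b', 0) = ev μ δ * (v.1 * b') := by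
      rw [nb_fst, mul_left_comm]
    rw [qf_eq D e1, hp]

end Pool.Agent.Helper64.OS
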